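import Mathlib
import Pool.Agent.H888R2.StekC

/-!
# Metrics with large first Steklov eigenvalue and prescribed volume and boundary volume

`M = T² × [0,1]` with `T² = ℝ²/ℤ²`, a compact connected smooth 3-manifold whose boundary consists of
the two tori `r = 0` and `r = 1`.  Functions, tensors, metrics on `M` are written in the coordinates
`(x, y, r)`; they are 1-periodic in `x` and in `y`.
-/

set_option autoImplicit false

open MeasureTheory Set Filter Topology Matrix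
open scoped ContDiff

namespace Pool.Agent.Results.MP_441052_gt.LargeSteklov

/-- `f` is 1-periodic in the first two coordinates: for `0 ≤ r ≤ 1` it is a function on
`M = T² × [0,1]`. -/
def Per {α : Type} (f : ℝ × ℝ × ℝ → α) : Prop :=
  ∀ x y r : ℝ, f (x + 1, y, r) = f (x, y, r) ∧ f (x, y + 1, r) = f (x, y, r)

/-- A smooth Riemannian metric on `M = T² × [0,1]`: `g p` is the matrix of the metric at the point
`p = (x, y, r)` in the coordinates `(x, y, r)`. -/
structure Metric where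
  g : ℝ × ℝ × ℝ → Matrix (Fin 3) (Fin 3) ℝ
  smooth : ∀ i j, ContDiff ℝ ∞ fun p => g p i j
  periodic : Per g
  posDef : ∀ x y r : ℝ, 0 ≤ r → r ≤ 1 → (g (x, y, r)).PosDef

namespace Metric

variable (g : Metric)

/-- The density `√det g` of the Riemannian volume. -/
noncomputable def dens (p : ℝ × ℝ × ℝ) : ℝ := √(g.g p).det

/-- The density of the area of the tori `r = const`: the square root of the determinant of the
restriction of `g` to the span of `∂_x, ∂_y`. -/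
noncomputable def bdDens (p : ℝ × ℝ × ℝ) : ℝ :=
  √((g.g p).submatrix (Fin.castSucc : Fin 2 → Fin 3) (Fin.castSucc : Fin 2 → Fin 3)).det

/-- `Vol_g(M)`. -/
noncomputable def vol : ℝ :=
  ∫ x in (0:ℝ)..1, ∫ y in (0:ℝ)..1, ∫ r in (0:ℝ)..1, g.dens (x, y, r)

/-- `∫_{∂M} φ dA_g`, where `∂M` is the union of the two tori `r = 0` and `r = 1`. -/
noncomputable def bdInt (φ : ℝ × ℝ × ℝ → ℝ) : ℝ :=
  ∫ x in (0:ℝ)..1, ∫ y in (0:ℝ)..1,
    (φ (x, y, 0) * g.bdDens (x, y, 0) + φ (x, y, 1) * g.bdDens (x, y, 1))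

/-- `Vol_g(∂M)`. -/
noncomputable def bdVol : ℝ := g.bdInt fun _ => 1

end Metric

/-- The differential of `u` at `p`: the vector of the three partial derivatives. -/
noncomputable def du (u : ℝ × ℝ × ℝ → ℝ) (p : ℝ × ℝ × ℝ) : Fin 3 → ℝ :=
  ![fderiv ℝ u p (1, 0, 0), fderiv ℝ u p (0, 1, 0), fderiv ℝ u p (0, 0, 1)]

namespace Metric

variable (g : Metric)

/-- `|∇u|²_g = g^{ij} ∂_i u ∂_j u` at `p`. -/
noncomputable def normSqGrad (u : ℝ × ℝ × ℝ → ℝ) (p : ℝ × ℝ × ℝ) : ℝ :=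
  du u p ⬝ᵥ ((g.g p)⁻¹ *ᵥ du u p)

/-- `∫_M |∇u|²_g dV_g`. -/
noncomputable def energy (u : ℝ × ℝ × ℝ → ℝ) : ℝ :=
  ∫ x in (0:ℝ)..1, ∫ y in (0:ℝ)..1, ∫ r in (0:ℝ)..1,
    g.normSqGrad u (x, y, r) * g.dens (x, y, r)

/-- The first nonzero Steklov eigenvalue, by its variational characterisation: the infimum of
`∫_M |∇u|² dV / ∫_{∂M} u² dA` over the functions `u` on `M` of class `C¹` up to the boundary (a dense
subspace of `H¹(M)`) with `∫_{∂M} u dA = 0` and `u` not identically zero on `∂M`. -/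
noncomputable def sigma1 : ℝ :=
  sInf {q : ℝ | ∃ u : ℝ × ℝ × ℝ → ℝ, ContDiff ℝ 1 u ∧ Per u ∧ g.bdInt u = 0 ∧
    g.bdInt (fun p => u p ^ 2) ≠ 0 ∧ q = g.energy u / g.bdInt (fun p => u p ^ 2)}

end Metric

section construction

/-- smooth function of `r`, equal to `0` for `r ≤ 1/3` and to `1` for `r ≥ 2/3` -/
noncomputable def th (r : ℝ) : ℝ := Real.smoothTransition (3 * r - 1)

theorem th_smooth : ContDiff ℝ ∞ th :=
  Real.smoothTransition.contDiff.comp (by fun_prop)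

theorem th_zero {r : ℝ} (hr : r ≤ 1 / 3) : th r = 0 :=
  Real.smoothTransition.zero_of_nonpos (by linarith)

theorem th_one {r : ℝ} (hr : 2 / 3 ≤ r) : th r = 1 :=
  Real.smoothTransition.one_of_one_le (by linarith)

noncomputable def HH (c r : ℝ) : ℝ := 1 + 6 * c * (r * (1 - r))

theorem HH_smooth (c : ℝ) : ContDiff ℝ ∞ (HH c) := by unfold HH; fun_prop

theorem one_le_HH {c r : ℝ} (hc : 0 ≤ c) (h0 : 0 ≤ r) (h1 : r ≤ 1) : 1 ≤ HH c r := by
  unfold HH
  have : 0 ≤ 6 * c * (r * (1 - r)) := by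
    apply mul_nonneg (by linarith) (mul_nonneg h0 (by linarith))
  linarith

/-- the matrix of the metric
`s² (t⁻² H (dr² + (dx + dy)²) + t² ((1-θ) dy - θ dx)²)` -/
noncomputable def gm (s t c : ℝ) (p : ℝ × ℝ × ℝ) : Matrix (Fin 3) (Fin 3) ℝ :=
  !![s ^ 2 * (HH c p.2.2 / t ^ 2 + t ^ 2 * th p.2.2 ^ 2),
      s ^ 2 * (HH c p.2.2 / t ^ 2 - t ^ 2 * (th p.2.2 * (1 - th p.2.2))), 0;
    s ^ 2 * (HH c p.2.2 / t ^ 2 - t ^ 2 * (th p.2.2 * (1 - th p.2.2))),
      s ^ 2 * (HH c p.2.2 / t ^ 2 + t ^ 2 * (1 - th p.2.2) ^ 2), 0;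
    0, 0, s ^ 2 * (HH c p.2.2 / t ^ 2)]

theorem gm_smooth (s t c : ℝ) (i j : Fin 3) : ContDiff ℝ ∞ fun p => gm s t c p i j := by
  have h1 : ContDiff ℝ ∞ fun p : ℝ × ℝ × ℝ => HH c p.2.2 := (HH_smooth c).comp (by fun_prop)
  have h2 : ContDiff ℝ ∞ fun p : ℝ × ℝ × ℝ => th p.2.2 := th_smooth.comp (by fun_prop)
  fin_cases i <;> fin_cases j <;> simp [gm] <;> fun_prop

theorem gm_per (s t c : ℝ) : Per (gm s t c) := fun _ _ _ => ⟨rfl, rfl⟩

theorem gm_pos {s t c : ℝ} (hs : 0 < s) (ht : 0 < t) (hc : 0 ≤ c) {x y r : ℝ} (h0 : 0 ≤ r)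
    (h1 : r ≤ 1) : (gm s t c (x, y, r)).PosDef := by
  have hH : 0 < HH c r := lt_of_lt_of_le one_pos (one_le_HH hc h0 h1)
  apply Matrix.PosDef.of_dotProduct_mulVec_pos
  · ext i j
    fin_cases i <;> fin_cases j <;> simp [gm]
  · intro v hv
    have e : star v ⬝ᵥ (gm s t c (x, y, r) *ᵥ v) =
        s ^ 2 * (HH c r / t ^ 2 * (v 2 ^ 2 + (v 0 + v 1) ^ 2) +
          t ^ 2 * ((1 - th r) * v 1 - th r * v 0) ^ 2) := by
      simp [gm, Matrix.mulVec, dotProduct, Fin.sum_univ_three]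
      ring
    rw [e]
    have hk : 0 < HH c r / t ^ 2 := by positivity
    have ht2 : 0 < t ^ 2 := by positivity
    apply mul_pos (by positivity)
    by_contra hneg
    push Not at hneg
    have a1 : v 2 = 0 := by
      by_contra h
      have : 0 < v 2 ^ 2 := by positivity
      have h3 : 0 < HH c r / t ^ 2 * (v 2 ^ 2 + (v 0 + v 1) ^ 2) :=
        mul_pos hk (by nlinarith [sq_nonneg (v 0 + v 1)])
      nlinarith [mul_nonneg ht2.le (sq_nonneg ((1 - th r) * v 1 - th r * v 0))]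
    have a2 : v 0 + v 1 = 0 := by
      by_contra h
      have : 0 < (v 0 + v 1) ^ 2 := by positivity
      have h3 : 0 < HH c r / t ^ 2 * (v 2 ^ 2 + (v 0 + v 1) ^ 2) :=
        mul_pos hk (by nlinarith [sq_nonneg (v 2)])
      nlinarith [mul_nonneg ht2.le (sq_nonneg ((1 - th r) * v 1 - th r * v 0))]
    have a3 : (1 - th r) * v 1 - th r * v 0 = 0 := by
      by_contra h
      have : 0 < ((1 - th r) * v 1 - th r * v 0) ^ 2 := by positivity
      have h3 : 0 < t ^ 2 * ((1 - th r) * v 1 - th r * v 0) ^ 2 := mul_pos ht2 this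
      nlinarith [mul_nonneg hk.le (add_nonneg (sq_nonneg (v 2)) (sq_nonneg (v 0 + v 1)))]
    have b1 : v 1 = -v 0 := by linarith
    have b0 : v 0 = 0 := by rw [b1] at a3; linarith
    apply hv
    ext i
    fin_cases i
    · exact b0
    · show v 1 = 0
      rw [b1, b0, neg_zero]
    · exact a1

/-- the family of metrics -/
noncomputable def fam (s t c : ℝ) (hs : 0 < s) (ht : 0 < t) (hc : 0 ≤ c) : Metric where
  g := gm s t c
  smooth := gm_smooth s t c
  periodic := gm_per s t c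
  posDef := fun _ _ _ h0 h1 => gm_pos hs ht hc h0 h1

theorem gm_det {s t c : ℝ} (ht : 0 < t) (x y r : ℝ) :
    (gm s t c (x, y, r)).det = (s ^ 3 * HH c r / t) ^ 2 := by
  rw [Matrix.det_fin_three]
  simp [gm]
  field_simp
  ring

theorem gm_bdDet {s t c : ℝ} (ht : 0 < t) (x y r : ℝ) :
    ((gm s t c (x, y, r)).submatrix (Fin.castSucc : Fin 2 → Fin 3)
      (Fin.castSucc : Fin 2 → Fin 3)).det = s ^ 4 * HH c r := by
  rw [Matrix.det_fin_two]
  simp [gm]
  field_simp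
  ring

theorem gm_inv {s t c : ℝ} (hs : 0 < s) (ht : 0 < t) (hc : 0 ≤ c) {x y r : ℝ} (h0 : 0 ≤ r)
    (h1 : r ≤ 1) : (gm s t c (x, y, r))⁻¹ =
      !![(HH c r / t ^ 2 + t ^ 2 * (1 - th r) ^ 2) / (s ^ 2 * HH c r),
          -(HH c r / t ^ 2 - t ^ 2 * (th r * (1 - th r))) / (s ^ 2 * HH c r), 0;
        -(HH c r / t ^ 2 - t ^ 2 * (th r * (1 - th r))) / (s ^ 2 * HH c r),
          (HH c r / t ^ 2 + t ^ 2 * th r ^ 2) / (s ^ 2 * HH c r), 0;
        0, 0, t ^ 2 / (s ^ 2 * HH c r)] := by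
  have hH : 0 < HH c r := lt_of_lt_of_le one_pos (one_le_HH hc h0 h1)
  apply Matrix.inv_eq_right_inv
  ext i j
  fin_cases i <;> fin_cases j <;>
    simp [gm, Matrix.mul_apply, Fin.sum_univ_three] <;> field_simp <;> ring

open Pool.Agent.H888R2.Stek in
theorem int_HH (c : ℝ) : ∫ r in (0:ℝ)..1, HH c r = 1 + c := by
  have e : ∀ r, HH c r = 1 + 6 * c * r - 6 * c * r ^ 2 := fun r => by unfold HH; ring
  simp_rw [e]
  rw [intervalIntegral.integral_sub (cint (by fun_prop) _ _) (cint (by fun_prop) _ _),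
    intervalIntegral.integral_add (cint (by fun_prop) _ _) (cint (by fun_prop) _ _),
    intervalIntegral.integral_const_mul, intervalIntegral.integral_const_mul,
    intervalIntegral.integral_const, integral_id, integral_pow]
  norm_num
  ring

theorem fam_dens {s t c : ℝ} (hs : 0 < s) (ht : 0 < t) (hc : 0 ≤ c) (x y : ℝ) {r : ℝ} (h0 : 0 ≤ r)
    (h1 : r ≤ 1) : (fam s t c hs ht hc).dens (x, y, r) = s ^ 3 / t * HH c r := by
  have hH : 0 < HH c r := lt_of_lt_of_le one_pos (one_le_HH hc h0 h1)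
  show √(gm s t c (x, y, r)).det = _
  rw [gm_det ht, Real.sqrt_sq (by positivity)]
  ring

theorem fam_bdDens {s t c : ℝ} (hs : 0 < s) (ht : 0 < t) (hc : 0 ≤ c) (x y : ℝ) {r : ℝ}
    (hr : HH c r = 1) : (fam s t c hs ht hc).bdDens (x, y, r) = s ^ 2 := by
  show √((gm s t c (x, y, r)).submatrix (Fin.castSucc : Fin 2 → Fin 3)
      (Fin.castSucc : Fin 2 → Fin 3)).det = _
  rw [gm_bdDet ht, hr, mul_one, show s ^ 4 = (s ^ 2) ^ 2 by ring, Real.sqrt_sq (by positivity)]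

theorem HH_zero (c : ℝ) : HH c 0 = 1 := by unfold HH; ring
theorem HH_one (c : ℝ) : HH c 1 = 1 := by unfold HH; ring

theorem fam_vol {s t c : ℝ} (hs : 0 < s) (ht : 0 < t) (hc : 0 ≤ c) :
    (fam s t c hs ht hc).vol = s ^ 3 / t * (1 + c) := by
  unfold Metric.vol
  have h : ∀ x y : ℝ, ∫ r in (0:ℝ)..1, (fam s t c hs ht hc).dens (x, y, r) = s ^ 3 / t * (1 + c) := by
    intro x y
    rw [← int_HH, ← intervalIntegral.integral_const_mul]
    apply intervalIntegral.integral_congr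
    intro r hr
    rw [uIcc_of_le zero_le_one] at hr
    exact fam_dens hs ht hc x y hr.1 hr.2
  simp_rw [h]
  simp

theorem fam_bdInt {s t c : ℝ} (hs : 0 < s) (ht : 0 < t) (hc : 0 ≤ c) (φ : ℝ × ℝ × ℝ → ℝ) :
    (fam s t c hs ht hc).bdInt φ =
      s ^ 2 * ∫ x in (0:ℝ)..1, ∫ y in (0:ℝ)..1, (φ (x, y, 0) + φ (x, y, 1)) := by
  unfold Metric.bdInt
  rw [← Pool.Agent.H888R2.Stek.mul2]
  simp_rw [fam_bdDens hs ht hc _ _ (HH_zero c), fam_bdDens hs ht hc _ _ (HH_one c)]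
  apply intervalIntegral.integral_congr
  intro x _
  apply intervalIntegral.integral_congr
  intro y _
  simp only
  ring

theorem fam_bdVol {s t c : ℝ} (hs : 0 < s) (ht : 0 < t) (hc : 0 ≤ c) :
    (fam s t c hs ht hc).bdVol = 2 * s ^ 2 := by
  unfold Metric.bdVol
  rw [fam_bdInt]
  simp
  ring

open Pool.Agent.H888R2.Stek

theorem fam_density {s t c : ℝ} (hs : 0 < s) (ht : 0 < t) (hc : 0 ≤ c) (u : ℝ × ℝ × ℝ → ℝ)
    (x y : ℝ) {r : ℝ} (h0 : 0 ≤ r) (h1 : r ≤ 1) :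
    (fam s t c hs ht hc).normSqGrad u (x, y, r) * (fam s t c hs ht hc).dens (x, y, r) =
      s * t * (pr u (x, y, r) ^ 2 +
        ((1 - th r) * px u (x, y, r) + th r * py u (x, y, r)) ^ 2) +
      s / t ^ 3 * (HH c r * (px u (x, y, r) - py u (x, y, r)) ^ 2) := by
  have hH : 0 < HH c r := lt_of_lt_of_le one_pos (one_le_HH hc h0 h1)
  rw [fam_dens hs ht hc x y h0 h1]
  unfold Metric.normSqGrad
  have e : (fam s t c hs ht hc).g (x, y, r) = gm s t c (x, y, r) := rfl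
  rw [e, gm_inv hs ht hc h0 h1]
  unfold du px py pr
  generalize fderiv ℝ u (x, y, r) (1, 0, 0) = a
  generalize fderiv ℝ u (x, y, r) (0, 1, 0) = b
  generalize fderiv ℝ u (x, y, r) (0, 0, 1) = d
  simp [Matrix.mulVec, dotProduct, Fin.sum_univ_three]
  field_simp
  ring

theorem fam_energy {s t c : ℝ} (hs : 0 < s) (ht : 0 < t) (hc : 0 ≤ c) {u : ℝ × ℝ × ℝ → ℝ}
    (hu : ContDiff ℝ 1 u) :
    s * t * ((∫ x in (0:ℝ)..1, ∫ y in (0:ℝ)..1, ∫ r in (0:ℝ)..1, pr u (x, y, r) ^ 2) +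
        (∫ x in (0:ℝ)..1, ∫ y in (0:ℝ)..1, ∫ r in (0:ℝ)..(1/3), px u (x, y, r) ^ 2) +
        (∫ x in (0:ℝ)..1, ∫ y in (0:ℝ)..1, ∫ r in (2/3:ℝ)..1, py u (x, y, r) ^ 2)) ≤
      (fam s t c hs ht hc).energy u := by
  have cx := px_cont hu
  have cy := py_cont hu
  have cr := pr_cont hu
  have cth : Continuous th := th_smooth.continuous
  have cHH : Continuous (HH c) := (HH_smooth c).continuous
  have c1 : Continuous (Function.uncurry fun x y => ∫ r in (0:ℝ)..1, pr u (x, y, r) ^ 2) :=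
    sqint_cont (cr.pow 2) 0 1
  have c2 : Continuous (Function.uncurry fun x y => ∫ r in (0:ℝ)..(1/3), px u (x, y, r) ^ 2) :=
    sqint_cont (cx.pow 2) 0 (1/3)
  have c3 : Continuous (Function.uncurry fun x y => ∫ r in (2/3:ℝ)..1, py u (x, y, r) ^ 2) :=
    sqint_cont (cy.pow 2) (2/3) 1
  have c12 : Continuous (Function.uncurry fun x y => (∫ r in (0:ℝ)..1, pr u (x, y, r) ^ 2) +
      ∫ r in (0:ℝ)..(1/3), px u (x, y, r) ^ 2) := by
    have k1 : Continuous fun p : ℝ × ℝ => ∫ r in (0:ℝ)..1, pr u (p.1, p.2, r) ^ 2 := c1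
    have k2 : Continuous fun p : ℝ × ℝ => ∫ r in (0:ℝ)..(1/3), px u (p.1, p.2, r) ^ 2 := c2
    show Continuous fun p : ℝ × ℝ => (∫ r in (0:ℝ)..1, pr u (p.1, p.2, r) ^ 2) +
      ∫ r in (0:ℝ)..(1/3), px u (p.1, p.2, r) ^ 2
    exact k1.add k2
  have c123 : Continuous (Function.uncurry fun x y => s * t * (((∫ r in (0:ℝ)..1, pr u (x, y, r) ^ 2) +
      ∫ r in (0:ℝ)..(1/3), px u (x, y, r) ^ 2) + ∫ r in (2/3:ℝ)..1, py u (x, y, r) ^ 2)) := by
    have k1 : Continuous fun p : ℝ × ℝ => (∫ r in (0:ℝ)..1, pr u (p.1, p.2, r) ^ 2) +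
      ∫ r in (0:ℝ)..(1/3), px u (p.1, p.2, r) ^ 2 := c12
    have k2 : Continuous fun p : ℝ × ℝ => ∫ r in (2/3:ℝ)..1, py u (p.1, p.2, r) ^ 2 := c3
    show Continuous fun p : ℝ × ℝ => s * t * (((∫ r in (0:ℝ)..1, pr u (p.1, p.2, r) ^ 2) +
      ∫ r in (0:ℝ)..(1/3), px u (p.1, p.2, r) ^ 2) + ∫ r in (2/3:ℝ)..1, py u (p.1, p.2, r) ^ 2)
    exact continuous_const.mul (k1.add k2)
  rw [← add2 c1 c2, ← add2 c12 c3, ← mul2]
  -- the integrand of the energy, written out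
  have cF : Continuous fun q : (ℝ × ℝ) × ℝ => s * t * (pr u (q.1.1, q.1.2, q.2) ^ 2 +
        ((1 - th q.2) * px u (q.1.1, q.1.2, q.2) + th q.2 * py u (q.1.1, q.1.2, q.2)) ^ 2) +
      s / t ^ 3 * (HH c q.2 * (px u (q.1.1, q.1.2, q.2) - py u (q.1.1, q.1.2, q.2)) ^ 2) := by
    fun_prop
  have hen : (fam s t c hs ht hc).energy u = ∫ x in (0:ℝ)..1, ∫ y in (0:ℝ)..1, ∫ r in (0:ℝ)..1,
      (s * t * (pr u (x, y, r) ^ 2 +
        ((1 - th r) * px u (x, y, r) + th r * py u (x, y, r)) ^ 2) +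
      s / t ^ 3 * (HH c r * (px u (x, y, r) - py u (x, y, r)) ^ 2)) := by
    unfold Metric.energy
    apply intervalIntegral.integral_congr
    intro x _
    apply intervalIntegral.integral_congr
    intro y _
    apply intervalIntegral.integral_congr
    intro r hr
    rw [uIcc_of_le zero_le_one] at hr
    exact fam_density hs ht hc u x y hr.1 hr.2
  rw [hen]
  refine mono2 c123 (pcont cF 0 1) fun x _ y _ => ?_
  -- one fixed `(x, y)`
  have d1 : Continuous fun r => pr u (x, y, r) := by fun_prop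
  have d2 : Continuous fun r => px u (x, y, r) := by fun_prop
  have d3 : Continuous fun r => py u (x, y, r) := by fun_prop
  have hst : 0 < s * t := mul_pos hs ht
  have e1 : ∫ r in (0:ℝ)..1, (s * t * (pr u (x, y, r) ^ 2 +
        ((1 - th r) * px u (x, y, r) + th r * py u (x, y, r)) ^ 2)) ≤
      ∫ r in (0:ℝ)..1, (s * t * (pr u (x, y, r) ^ 2 +
        ((1 - th r) * px u (x, y, r) + th r * py u (x, y, r)) ^ 2) +
      s / t ^ 3 * (HH c r * (px u (x, y, r) - py u (x, y, r)) ^ 2)) := by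
    refine imono (by fun_prop) (by fun_prop) zero_le_one fun r hr => ?_
    have hH : 0 < HH c r := lt_of_lt_of_le one_pos (one_le_HH hc hr.1 hr.2)
    have : 0 ≤ s / t ^ 3 * (HH c r * (px u (x, y, r) - py u (x, y, r)) ^ 2) := by positivity
    linarith
  refine le_trans ?_ e1
  rw [intervalIntegral.integral_const_mul]
  apply mul_le_mul_of_nonneg_left _ hst.le
  rw [intervalIntegral.integral_add (cint (by fun_prop) _ _) (cint (by fun_prop) _ _), add_assoc]
  gcongr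
  have cg : Continuous fun r => ((1 - th r) * px u (x, y, r) + th r * py u (x, y, r)) ^ 2 := by
    fun_prop
  have split : ∫ r in (0:ℝ)..1, ((1 - th r) * px u (x, y, r) + th r * py u (x, y, r)) ^ 2 =
      (∫ r in (0:ℝ)..(1/3), ((1 - th r) * px u (x, y, r) + th r * py u (x, y, r)) ^ 2) +
      (∫ r in (1/3:ℝ)..(2/3), ((1 - th r) * px u (x, y, r) + th r * py u (x, y, r)) ^ 2) +
      ∫ r in (2/3:ℝ)..1, ((1 - th r) * px u (x, y, r) + th r * py u (x, y, r)) ^ 2 := by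
    rw [intervalIntegral.integral_add_adjacent_intervals (cint cg _ _) (cint cg _ _),
      intervalIntegral.integral_add_adjacent_intervals (cint cg _ _) (cint cg _ _)]
  have g1 : ∫ r in (0:ℝ)..(1/3), ((1 - th r) * px u (x, y, r) + th r * py u (x, y, r)) ^ 2 =
      ∫ r in (0:ℝ)..(1/3), px u (x, y, r) ^ 2 := by
    apply intervalIntegral.integral_congr
    intro r hr
    rw [uIcc_of_le (by norm_num)] at hr
    simp only [th_zero hr.2]
    ring
  have g2 : ∫ r in (2/3:ℝ)..1, ((1 - th r) * px u (x, y, r) + th r * py u (x, y, r)) ^ 2 =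
      ∫ r in (2/3:ℝ)..1, py u (x, y, r) ^ 2 := by
    apply intervalIntegral.integral_congr
    intro r hr
    rw [uIcc_of_le (by norm_num)] at hr
    simp only [th_one hr.1]
    ring
  have g3 : 0 ≤ ∫ r in (1/3:ℝ)..(2/3), ((1 - th r) * px u (x, y, r) + th r * py u (x, y, r)) ^ 2 :=
    intervalIntegral.integral_nonneg (by norm_num) fun r _ => sq_nonneg _
  rw [split, g1, g2]
  linarith

theorem fam_sigma1 {s t c : ℝ} (hs : 0 < s) (ht : 0 < t) (hc : 0 ≤ c) :
    t / (74 * s) ≤ (fam s t c hs ht hc).sigma1 := by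
  unfold Metric.sigma1
  apply le_csInf
  · refine ⟨_, fun p => 2 * p.2.2 - 1, by fun_prop, fun _ _ _ => ⟨rfl, rfl⟩, ?_, ?_, rfl⟩
    · rw [fam_bdInt]
      norm_num
    · rw [fam_bdInt]
      norm_num
      exact hs.ne'
  · rintro q ⟨u, hu, -, hmean, hne, rfl⟩
    rw [fam_bdInt] at hmean hne ⊢
    have hs2 : 0 < s ^ 2 := by positivity
    have hm : ∫ x in (0:ℝ)..1, ∫ y in (0:ℝ)..1, (u (x, y, 0) + u (x, y, 1)) = 0 := by
      rcases mul_eq_zero.1 hmean with h | h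
      · exact absurd h hs2.ne'
      · exact h
    have h1 := main hu hm
    have h2 := fam_energy hs ht hc hu
    set B := ∫ x in (0:ℝ)..1, ∫ y in (0:ℝ)..1, (u (x, y, 0) ^ 2 + u (x, y, 1) ^ 2) with hB
    have hBn : 0 ≤ B := intervalIntegral.integral_nonneg zero_le_one fun x _ =>
      intervalIntegral.integral_nonneg zero_le_one fun y _ => by positivity
    have hBp : 0 < B := lt_of_le_of_ne hBn fun h => hne (by rw [← h, mul_zero])
    rw [le_div_iff₀ (by positivity)]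
    refine le_trans ?_ h2
    have h3 := mul_le_mul_of_nonneg_left h1 (mul_pos hs ht).le
    have e : t / (74 * s) * (s ^ 2 * B) = s * t * B / 74 := by field_simp
    rw [e]
    linarith

end construction

/-- **Theorem.** Let `M = T² × [0,1]`, and let `V, A > 0`. There are smooth Riemannian metrics `g_n` on
`M` with `Vol(M, g_n) = V`, `Vol(∂M, g_n) = A` for all `n`, and `σ₁(M, g_n) → ∞`. -/
theorem result (V A : ℝ) (hV : 0 < V) (hA : 0 < A) :
    ∃ g : ℕ → Metric, (∀ n, (g n).vol = V) ∧ (∀ n, (g n).bdVol = A) ∧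
      Tendsto (fun n => (g n).sigma1) atTop atTop := by
  obtain ⟨s, hs, hsA⟩ : ∃ s : ℝ, 0 < s ∧ 2 * s ^ 2 = A := by
    refine ⟨√(A / 2), by positivity, ?_⟩
    rw [Real.sq_sqrt (by positivity)]
    ring
  have ht : ∀ n : ℕ, 0 < s ^ 3 * ((n : ℝ) + 1) / V := fun n => by positivity
  have hc : ∀ n : ℕ, (0:ℝ) ≤ n := fun n => Nat.cast_nonneg n
  refine ⟨fun n => fam s (s ^ 3 * ((n : ℝ) + 1) / V) n hs (ht n) (hc n), ?_, ?_, ?_⟩
  · intro n
    rw [fam_vol]
    field_simp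
    ring
  · intro n
    rw [fam_bdVol, hsA]
  · refine tendsto_atTop_mono (fun n => fam_sigma1 hs (ht n) (hc n)) ?_
    have e : (fun n : ℕ => s ^ 3 * ((n : ℝ) + 1) / V / (74 * s)) =
        fun n : ℕ => s ^ 2 / (74 * V) * ((n : ℝ) + 1) := by
      funext n
      field_simp
    rw [e]
    apply Tendsto.const_mul_atTop (by positivity)
    exact tendsto_atTop_add_const_right _ _ tendsto_natCast_atTop_atTop

end Pool.Agent.Results.MP_441052_gt.LargeSteklov
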